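import Pool.Agent.Helper60.BO.StP
import Pool.Agent.Helper98.BO.ST
import Pool.Agent.Helper78.BO.Tests

namespace Pool.Agent.Helper60.BO

open Pool.Agent.Helper50.BO Pool.Agent.Helper98.BO Real

/-- degree of the adjacency for columns of norm^2 at most `τ` -/
theorem deg_tau (h3 : STdeg) {V J : Type} [Fintype V] [Fintype J] (c : J → V → ℝ) {α B τ : ℝ}
    (hα : 0 < α) (hB : 0 ≤ B) (hτ : 1 ≤ τ) (hcol : ∀ i, ∑ j, c j i ^ 2 ≤ τ)
    (hrow : ∀ j, ∑ i, c j i ^ 2 ≤ B) (u : V) :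
    (Set.ncard {v | Ad c α u v} : ℝ) ≤ B * τ / α ^ 2 := by
  have hτ0 : 0 < τ := by linarith
  have hs : √τ ^ 2 = τ := Real.sq_sqrt hτ0.le
  have key : ∀ j v, (c j v / √τ) ^ 2 = c j v ^ 2 / τ := fun j v => by
    rw [div_pow, hs]
  have h := h3 V J (fun j v => c j v / √τ) (α / τ) (B / τ) (by positivity) (by positivity)
    (fun i => by
      simp only [key]
      rw [← Finset.sum_div, div_le_one hτ0]
      exact hcol i)
    (fun j => by
      simp only [key]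
      rw [← Finset.sum_div]
      exact div_le_div_of_nonneg_right (hrow j) hτ0.le) u
  have e : {v | Ad (fun j v => c j v / √τ) (α / τ) u v} = {v | Ad c α u v} := by
    ext v
    simp only [Ad, Set.mem_ofPred_eq, key]
    simp only [div_lt_div_iff_of_pos_right hτ0]
  rw [e] at h
  refine h.trans (le_of_eq ?_)
  field_simp

/-- parameters -/
structure ParP (B N P l8 al D ℓ : ℝ) (k : ℕ) : Prop where
  hl8 : l8 = log (8 * N)
  hP : P = 1 + B ^ 2 * l8 ^ 4
  hal : al = 1 / (32 * P ^ 2 * l8 ^ 3)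
  hD : D = 1 + B ^ 2 / al ^ 2
  hℓ : ℓ = 1 + 6 * log D
  hk : k = ⌈l8⌉₊

theorem num_parP {B N P l8 al D ℓ : ℝ} {k : ℕ} (hp : ParP B N P l8 al D ℓ k) (hB : 1 ≤ B)
    (hN : 3 ≤ N) :
    3 ≤ l8 ∧ 1 ≤ P ∧ 0 < al ∧ al ≤ 1 / l8 ^ 2 ∧ al ≤ 1 ∧ 1 ≤ D ∧ 1 ≤ ℓ ∧ l8 ≤ k ∧ (k : ℝ) ≤ 2 * l8 ∧
      log (64 * N) ≤ 2 * l8 ∧ 2 * B / al * exp (-ℓ) ≤ 1 ∧
      ℓ ≤ 220 * LL B N ∧ log (64 * P ^ 3 * l8 ^ 4) ≤ 25 * LL B N ∧ 1 ≤ LL B N := by
  obtain ⟨hl8, hP, hal, hD, hℓ, hk⟩ := hp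
  obtain ⟨n1, n2, n3, n4⟩ := num_N hN
  rw [← hl8] at n1 n3 n4
  have hB0 : 0 < B := by linarith
  have hl0 : 0 < l8 := by linarith
  have hlogB : 0 ≤ log B := log_nonneg hB
  have hlogl : 0 ≤ log l8 := log_nonneg (by linarith)
  have hLL : LL B N = 1 + log B + log (log N) := rfl
  have hLL1 : 1 ≤ LL B N := by rw [hLL]; linarith
  have hP1 : 1 ≤ P := by rw [hP]; have := mul_pos (pow_pos hB0 2) (pow_pos hl0 4); linarith
  have hP0 : 0 < P := by linarith
  have hal0 : 0 < al := by rw [hal]; positivity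
  have hden : l8 ^ 2 ≤ 32 * P ^ 2 * l8 ^ 3 := by
    have e1 : 1 ≤ P ^ 2 := one_le_pow₀ hP1
    have e3 : 1 ≤ P ^ 2 * l8 := by nlinarith
    calc l8 ^ 2 = 1 * l8 ^ 2 := (one_mul _).symm
      _ ≤ (32 * (P ^ 2 * l8)) * l8 ^ 2 := by
          apply mul_le_mul_of_nonneg_right _ (by positivity)
          linarith
      _ = _ := by ring
  have hal1 : al ≤ 1 / l8 ^ 2 := by
    rw [hal]
    exact one_div_le_one_div_of_le (by positivity) hden
  have hl1 : 1 / l8 ^ 2 ≤ 1 := by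
    rw [div_le_one (by positivity)]
    exact one_le_pow₀ (by linarith)
  have hal2 : al ≤ 1 := hal1.trans hl1
  have hD1 : 1 ≤ D := by
    rw [hD]; have := div_pos (pow_pos hB0 2) (pow_pos hal0 2); linarith
  have hD0 : 0 < D := by linarith
  have hlogD : 0 ≤ log D := log_nonneg hD1
  have hℓ1 : 1 ≤ ℓ := by rw [hℓ]; linarith
  have hk1 : l8 ≤ k := by rw [hk]; exact Nat.le_ceil _
  have hk2 : (k : ℝ) ≤ 2 * l8 := by
    have := Nat.ceil_lt_add_one hl0.le
    rw [← hk] at this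
    linarith
  have hl2 := Real.log_two_lt_d9
  have hl2' := Real.log_two_gt_d9
  have e1 : P ≤ 2 * B ^ 2 * l8 ^ 4 := by
    have : 1 ≤ B ^ 2 * l8 ^ 4 := by
      have f1 := one_le_pow₀ (n := 4) (show 1 ≤ l8 by linarith)
      have f2 := one_le_pow₀ (n := 2) hB
      nlinarith
    rw [hP]; linarith
  refine ⟨n1, hP1, hal0, hal1, hal2, hD1, hℓ1, hk1, hk2, n4, ?_, ?_, ?_, hLL1⟩
  · have e1 : -ℓ = -(1 + 6 * log D) := by rw [hℓ]
    rw [e1, exp_neg, ← div_eq_mul_inv, div_le_one (exp_pos _), exp_add]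
    have e2 : exp (6 * log D) = D ^ 6 := by
      rw [show (6 : ℝ) * log D = ((6 : ℕ) : ℝ) * log D by norm_num, exp_nat_mul, exp_log hD0]
    have e3 : 2 ≤ exp 1 := by have := Real.exp_one_gt_d9; linarith
    have e4 : D ≤ D ^ 6 := le_self_pow₀ hD1 (by norm_num)
    have e5 : B / al ≤ D := by
      have g1 : B / al ≤ B ^ 2 / al := by
        apply div_le_div_of_nonneg_right _ hal0.le
        nlinarith
      have g2 : B ^ 2 / al ≤ B ^ 2 / al ^ 2 := by
        apply div_le_div_of_nonneg_left (by positivity) (by positivity)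
        calc al ^ 2 = al * al := by ring
          _ ≤ 1 * al := mul_le_mul_of_nonneg_right hal2 hal0.le
          _ = al := one_mul _
      rw [hD]; linarith
    rw [e2]
    calc 2 * B / al = 2 * (B / al) := by ring
      _ ≤ exp 1 * D ^ 6 := mul_le_mul e3 (e5.trans e4) (by positivity) (by positivity)
  · have e2 : D ≤ 2 ^ 15 * B ^ 10 * l8 ^ 22 := by
      have f1 : B ^ 2 / al ^ 2 = B ^ 2 * (2 ^ 10 * P ^ 4 * l8 ^ 6) := by
        rw [hal]; field_simp; ring
      have f2 : P ^ 4 ≤ (2 * B ^ 2 * l8 ^ 4) ^ 4 := pow_le_pow_left₀ hP0.le e1 4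
      have f3 : B ^ 2 * (2 ^ 10 * P ^ 4 * l8 ^ 6) ≤ 2 ^ 14 * B ^ 10 * l8 ^ 22 := by
        calc B ^ 2 * (2 ^ 10 * P ^ 4 * l8 ^ 6)
            ≤ B ^ 2 * (2 ^ 10 * (2 * B ^ 2 * l8 ^ 4) ^ 4 * l8 ^ 6) := by gcongr
          _ = _ := by ring
      have f4 : 1 ≤ 2 ^ 14 * B ^ 10 * l8 ^ 22 := by
        have g1 : 1 ≤ B ^ 10 := one_le_pow₀ hB
        have g2 : 1 ≤ l8 ^ 22 := one_le_pow₀ (by linarith)
        have g3 : 1 ≤ B ^ 10 * l8 ^ 22 := by nlinarith
        linarith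
      rw [hD, f1]; linarith
    have e3 : log D ≤ 15 * log 2 + 10 * log B + 22 * log l8 := by
      have f := log_le_log hD0 e2
      rw [log_mul (by positivity) (by positivity), log_mul (by positivity) (by positivity),
        log_pow, log_pow, log_pow] at f
      push_cast at f
      linarith
    rw [hℓ, hLL]; linarith
  · have f2 : P ^ 3 ≤ (2 * B ^ 2 * l8 ^ 4) ^ 3 := pow_le_pow_left₀ hP0.le e1 3
    have e2 : 64 * P ^ 3 * l8 ^ 4 ≤ 2 ^ 9 * B ^ 6 * l8 ^ 16 := by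
      calc 64 * P ^ 3 * l8 ^ 4 ≤ 64 * (2 * B ^ 2 * l8 ^ 4) ^ 3 * l8 ^ 4 := by gcongr
        _ = _ := by ring
    have f := log_le_log (by positivity) e2
    have f' : log (2 ^ 9 * B ^ 6 * l8 ^ 16) = 9 * log 2 + 6 * log B + 16 * log l8 := by
      rw [log_mul (by positivity) (by positivity), log_mul (by positivity) (by positivity),
        log_pow, log_pow, log_pow]
      push_cast
      ring
    rw [f'] at f
    rw [hLL]
    linarith

/-- the error of the walk with the parameters -/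
theorem err_num {τ ℓ L T ν κ : ℝ} (hτ : 1 ≤ τ) (hℓ1 : 1 ≤ ℓ) (hL : 1 ≤ L) (hℓL : ℓ ≤ 220 * L)
    (hT : T = max τ (ℓ / 6)) (hν : ν = (ℓ / 6) / T) (hκ : κ = 24 * T) :
    130 * √κ * (1 + √ν * (1 + log (1 + ν * κ))) ≤ 50000 * (√τ + gs L) := by
  have hT0 : 0 < T := by rw [hT]; exact lt_max_of_lt_left (by linarith)
  have hνκ : ν * κ = 4 * ℓ := by rw [hν, hκ]; field_simp; ring
  have hν0 : 0 ≤ ν := by rw [hν]; positivity
  have hκ0 : 0 ≤ κ := by rw [hκ]; positivity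
  have e1 : √κ * √ν = 2 * √ℓ := by
    rw [mul_comm, ← sqrt_mul hν0, hνκ, sqrt_mul (by norm_num)]
    congr 1
    rw [show (4 : ℝ) = 2 ^ 2 by norm_num]
    exact sqrt_sq (by norm_num)
  have hsτ : 0 ≤ √τ := sqrt_nonneg _
  have hsℓ : 0 ≤ √ℓ := sqrt_nonneg _
  have hsL : 1 ≤ √L := one_le_sqrt.2 hL
  have e2 : √κ ≤ 5 * (√τ + √ℓ) := by
    rw [hκ, sqrt_mul (by norm_num)]
    have g1 : √24 ≤ 5 := by
      rw [sqrt_le_left (by norm_num)]; norm_num
    have g2 : √T ≤ √τ + √ℓ := by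
      rw [hT]
      rcases le_total τ (ℓ / 6) with h | h
      · rw [max_eq_right h]
        have : √(ℓ / 6) ≤ √ℓ := sqrt_le_sqrt (by linarith)
        linarith
      · rw [max_eq_left h]; linarith
    exact mul_le_mul g1 g2 (sqrt_nonneg _) (by norm_num)
  have e3 : √ℓ ≤ 15 * √L := by
    have g1 : √ℓ ≤ √(225 * L) := sqrt_le_sqrt (by linarith)
    rw [sqrt_mul (by norm_num), show (225 : ℝ) = 15 ^ 2 by norm_num, sqrt_sq (by norm_num)] at g1
    exact g1
  have hlogL : 0 ≤ log L := log_nonneg hL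
  have e4 : log (1 + ν * κ) ≤ 7 + log L := by
    rw [hνκ]
    have g1 : 1 + 4 * ℓ ≤ 1000 * L := by linarith
    have g2 : log (1 + 4 * ℓ) ≤ log (1000 * L) := log_le_log (by linarith) g1
    rw [log_mul (by norm_num) (by linarith)] at g2
    have g3 : log 1000 ≤ 7 := by
      rw [log_le_iff_le_exp (by norm_num)]
      have h1 := Real.exp_one_gt_d9
      have h2 : (2.7182818283 : ℝ) ^ 7 ≤ exp 1 ^ 7 := pow_le_pow_left₀ (by norm_num) h1.le 7
      rw [← exp_nat_mul] at h2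
      norm_num at h2 ⊢
      linarith
    linarith
  have e5 : 0 ≤ log (1 + ν * κ) := log_nonneg (by rw [hνκ]; linarith)
  calc 130 * √κ * (1 + √ν * (1 + log (1 + ν * κ)))
      = 130 * √κ + 130 * (√κ * √ν) * (1 + log (1 + ν * κ)) := by ring
    _ = 130 * √κ + 260 * √ℓ * (1 + log (1 + ν * κ)) := by rw [e1]; ring
    _ ≤ 130 * (5 * (√τ + 15 * √L)) + 260 * (15 * √L) * (1 + (7 + log L)) := by
        apply add_le_add
        · apply mul_le_mul_of_nonneg_left _ (by norm_num)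
          refine e2.trans ?_
          linarith
        · apply mul_le_mul _ (by linarith) (by linarith) (by positivity)
          linarith
    _ ≤ 50000 * (√τ + gs L) := by
        unfold gs
        nlinarith [mul_nonneg (by linarith : (0 : ℝ) ≤ √L) hlogL]

theorem stp_of (h1 : STcount) (h2 : STgreedy) (h3 : STdeg) : STP 50000 := by
  classical
  intro V J _ _ c z B N τ hτ hτB hN hc hcol hrow hz
  have hB : 1 ≤ B := hτ.trans hτB
  have hB0 : 0 ≤ B := by linarith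
  have hN3 : 3 ≤ N := by
    have a1 : (0 : ℝ) ≤ Fintype.card V := Nat.cast_nonneg _
    have a2 : (0 : ℝ) ≤ Fintype.card J := Nat.cast_nonneg _
    linarith
  have hVN : (Fintype.card V : ℝ) ≤ N := by
    have a2 : (0 : ℝ) ≤ Fintype.card J := Nat.cast_nonneg _
    linarith
  set l8 := log (8 * N) with hl8
  set P := 1 + B ^ 2 * l8 ^ 4 with hP
  set al := 1 / (32 * P ^ 2 * l8 ^ 3) with hal
  set D := 1 + B ^ 2 / al ^ 2 with hD
  set ℓ := 1 + 6 * log D with hℓ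
  set k := ⌈l8⌉₊ with hk
  have hpar : ParP B N P l8 al D ℓ k := ⟨hl8, hP, hal, hD, hℓ, hk⟩
  obtain ⟨hl83, hP1, hal0, hal1, hal2, hD1, hℓ1, hk1, hk2, h64, hexp, hℓL, hlog, hLL1⟩ :=
    num_parP hpar hB hN3
  have hl0 : 0 < l8 := by linarith
  set aw := 1 / l8 ^ 2 with haw
  have haw0 : 0 < aw := by positivity
  have hBτ : B * τ ≤ B ^ 2 := by nlinarith
  set dw := ⌊B * τ / aw ^ 2⌋₊ with hdw
  set ds := ⌊B * τ / al ^ 2⌋₊ with hds
  have hdwP : (1 + dw : ℝ) ≤ P := by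
    have a1 : (dw : ℝ) ≤ B * τ / aw ^ 2 := Nat.floor_le (by positivity)
    have a2 : B * τ / aw ^ 2 = (B * τ) * l8 ^ 4 := by rw [haw]; field_simp
    have a3 : (B * τ) * l8 ^ 4 ≤ B ^ 2 * l8 ^ 4 :=
      mul_le_mul_of_nonneg_right hBτ (by positivity)
    rw [hP]; linarith
  have hdsD : (1 + ds : ℝ) ≤ D := by
    have a1 : (ds : ℝ) ≤ B * τ / al ^ 2 := Nat.floor_le (by positivity)
    have a2 : B * τ / al ^ 2 ≤ B ^ 2 / al ^ 2 := div_le_div_of_nonneg_right hBτ (by positivity)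
    rw [hD]; linarith
  have hd1 : ∀ a, Set.ncard {b | Ad c aw a b} ≤ dw := fun a =>
    Nat.le_floor (deg_tau h3 c haw0 hB0 hτ hcol hrow a)
  have hd2 : ∀ a, Set.ncard {b | Ad c al a b} ≤ ds := fun a =>
    Nat.le_floor (deg_tau h3 c hal0 hB0 hτ hcol hrow a)
  obtain ⟨W, hW1, hW2, hW3⟩ := h1 V (Ad c aw) (Ad c al) dw ds k (Ad_symm c _) (Ad_symm c _)
    (Ad_mono c hal1) hd1 hd2
  have hWexp : (W.card : ℝ) * exp (-(ℓ * (k + 1))) ≤ 1 / 8 := by
    have hD0 : 0 < D := by linarith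
    have a1 : (W.card : ℝ) ≤ N * D ^ (6 * k) := by
      have b1 : (W.card : ℝ) ≤ Fintype.card V * ((1 + ds : ℝ) ^ 3) ^ (2 * k) := by
        exact_mod_cast hW1
      refine b1.trans ?_
      rw [← pow_mul, show 3 * (2 * k) = 6 * k by ring]
      have b2 : (1 + ds : ℝ) ^ (6 * k) ≤ D ^ (6 * k) := pow_le_pow_left₀ (by positivity) hdsD _
      exact mul_le_mul hVN b2 (by positivity) (by linarith)
    have a2 : exp (-(ℓ * (k + 1))) ≤ 1 / (8 * N) / D ^ (6 * k) := by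
      have b1 : exp (-(ℓ * (k + 1))) ≤ exp (-(l8 + (6 * k) * log D)) := by
        apply exp_le_exp.2
        have c2 : 0 ≤ log D := log_nonneg hD1
        rw [hℓ]
        nlinarith
      refine b1.trans (le_of_eq ?_)
      rw [exp_neg, exp_add, hl8, exp_log (by linarith)]
      have b2 : exp (6 * k * log D) = D ^ (6 * k) := by
        rw [show (6 : ℝ) * k * log D = ((6 * k : ℕ) : ℝ) * log D by push_cast; ring, exp_nat_mul,
          exp_log hD0]
      rw [b2]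
      field_simp
    calc (W.card : ℝ) * exp (-(ℓ * (k + 1)))
        ≤ N * D ^ (6 * k) * (1 / (8 * N) / D ^ (6 * k)) :=
          mul_le_mul a1 a2 (exp_pos _).le (by positivity)
      _ = 1 / 8 := by field_simp
  set T := max τ (ℓ / 6) with hT
  set ν := (ℓ / 6) / T with hν
  set κ := 24 * T with hκ
  have hT1 : 1 ≤ T := hτ.trans (le_max_left _ _)
  have hT0 : 0 < T := by linarith
  have hν0 : 0 ≤ ν := by positivity
  have hν1 : ν ≤ 1 := by rw [hν, div_le_one hT0]; exact le_max_right _ _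
  have hνT : ν * (κ / 2 - 6 * T) = ℓ := by
    rw [hκ, hν]; field_simp; ring
  obtain ⟨y, y1, -, y2, y3, y4⟩ := Pool.Agent.Helper78.BO.tests c z (B := B) (N := N) (T := T)
    (κ := κ) (ν := ν) (aw := aw) (al := al) (k := k) W hN
    (fun i => (hcol i).trans (le_max_left _ _)) hc hrow hz (by linarith) le_rfl hT0.le hν0 hν1 hal0
    hal1 (by
      rw [← hl8]
      have : 8 * aw * l8 ^ 2 = 8 := by rw [haw]; field_simp
      linarith) hW2 (by rw [hνT]; exact hWexp) (by rw [hνT]; exact hexp)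
  obtain ⟨g, g1, g2⟩ := hW3 {u | |y u| < 1} (fun T hT => by
    obtain ⟨u, hu, hu1⟩ := y3 T hT
    exact ⟨u, hu, fun hh => by
      have hh' : |y u| < 1 := hh
      rw [hu1] at hh'
      exact lt_irrefl _ hh'⟩)
  have hk0 : 1 ≤ k := by
    have : (1 : ℝ) ≤ k := by linarith
    exact_mod_cast this
  have hl64 : 0 ≤ log (64 * N) := log_nonneg (by linarith)
  refine ⟨y, g, al, (1 + dw) * (al * log (64 * N)), (1 + dw) * k, hal0, hal2, by positivity,
    Nat.mul_pos (by omega) hk0, y1, fun j => (y2 j).trans ?_, fun v => g2 v,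
    fun j u u' hu hu' e1 e2 => g1 u u' hu hu' ⟨j, e1, e2⟩, fun j => ?_, ?_, ?_⟩
  · exact err_num hτ hℓ1 hLL1 hℓL hT hν hκ
  · obtain ⟨A, hA1, hA2, hA3⟩ := h2 V (Ad c aw) dw
      (fun u => if c j u ^ 2 ≤ al then c j u ^ 2 else 0) (Finset.univ.filter fun u => |y u| < 1)
      (Ad_symm c _) hd1 (fun v => by split_ifs; exacts [sq_nonneg _, le_rfl])
    have a1 := y4 j A (fun u hu => (Finset.mem_filter.1 (hA1 hu)).2) hA2
    have a2 : ∑ u, (if |y u| < 1 ∧ c j u ^ 2 ≤ al then c j u ^ 2 else 0)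
        = ∑ v ∈ Finset.univ.filter (fun u => |y u| < 1),
          (if c j v ^ 2 ≤ al then c j v ^ 2 else 0) := by
      rw [Finset.sum_filter]
      refine Finset.sum_congr rfl fun u _ => ?_
      by_cases hu : |y u| < 1
      · simp [hu]
      · simp [hu]
    rw [a2]
    calc _ ≤ _ := hA3
      _ ≤ (dw + 1) * (al * log (64 * N)) := by
          apply mul_le_mul_of_nonneg_left a1; positivity
      _ = _ := by ring
  · push_cast
    have hal' : al * (32 * P ^ 2 * l8 ^ 3) = 1 := by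
      rw [hal]; field_simp
    calc 8 * ((1 + dw : ℝ) * k) * ((1 + dw) * (al * log (64 * N))) * l8
        ≤ 8 * (P * (2 * l8)) * (P * (al * (2 * l8))) * l8 := by gcongr
      _ = al * (32 * P ^ 2 * l8 ^ 3) := by ring
      _ = 1 := hal'
  · refine le_trans (log_le_log (by positivity) ?_) (hlog.trans ?_)
    · push_cast
      rw [hal, div_div_eq_mul_div, div_one]
      calc (1 + dw : ℝ) * k * (32 * P ^ 2 * l8 ^ 3) ≤ P * (2 * l8) * (32 * P ^ 2 * l8 ^ 3) := by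
            gcongr
        _ = 64 * P ^ 3 * l8 ^ 4 := by ring
    · linarith

end Pool.Agent.Helper60.BO
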