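import Pool.Agent.Helper98.BO.STst

/-!
Props for the round theorem of THEOREM P (entries at most one, columns of norm^2 at most `τ`, rows
of norm^2 at most `B`), see bf60_rtp.md and bf_helper66b.md in the store.  Same structure as
RT = ST + FL.
-/

namespace Pool.Agent.Helper60.BO

open Pool.Agent.Helper50.BO Pool.Agent.Helper98.BO

/-- the second part of the error -/
noncomputable def gs (L : ℝ) : ℝ := √L * (1 + Real.log L)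

/-- STP: structure of the partial rounding (from Helper78.BO.tests). -/
def STP (C : ℝ) : Prop := ∀ (V J : Type) [Fintype V] [Fintype J]
  (c : J → V → ℝ) (z : V → ℝ) (B N τ : ℝ), 1 ≤ τ → τ ≤ B →
  (Fintype.card V : ℝ) + Fintype.card J + 3 ≤ N → (∀ j i, c j i ^ 2 ≤ 1) →
  (∀ i, ∑ j, c j i ^ 2 ≤ τ) → (∀ j, ∑ i, c j i ^ 2 ≤ B) → (∀ i, |z i| ≤ 1) →
  ∃ (y : V → ℝ) (h : V → V) (al om : ℝ) (nc : ℕ), 0 < al ∧ al ≤ 1 ∧ 0 ≤ om ∧ 1 ≤ nc ∧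
    (∀ i, |y i| ≤ 1) ∧ (∀ j, |∑ i, c j i * (y i - z i)| ≤ C * (√τ + gs (LL B N))) ∧
    (∀ v, (Set.ncard {u | |y u| < 1 ∧ h u = v}) ≤ nc) ∧
    (∀ j u u', |y u| < 1 → |y u'| < 1 → al < c j u ^ 2 → al < c j u' ^ 2 → h u = h u') ∧
    (∀ j, ∑ u, (if |y u| < 1 ∧ c j u ^ 2 ≤ al then c j u ^ 2 else 0) ≤ om) ∧
    8 * nc * om * Real.log (8 * N) ≤ 1 ∧ Real.log (nc / al) ≤ C * LL B N

/-- GSP: signs for a real matrix with entries at most one and at most `n` nonzero columns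
(Theorem III of helper22 for real matrices). -/
def GSP (C : ℝ) : Prop := ∀ (V J : Type) [Fintype V] [Fintype J] (c : J → V → ℝ) (n : ℕ) (τ : ℝ),
  1 ≤ n → 1 ≤ τ → (∀ i, ∑ j, c j i ^ 2 ≤ τ) → (∀ j i, c j i ^ 2 ≤ 1) →
  (Set.ncard {i | ∃ j, c j i ≠ 0}) ≤ n →
  ∃ s : V → ℝ, (∀ i, |s i| = 1) ∧ ∀ j, |∑ i, c j i * s i| ≤ C * (√τ + gs (1 + Real.log n))

/-- FLP: completion of the small clusters. -/
def FLP (C : ℝ) : Prop := ∀ (V J : Type) [Fintype V] [Fintype J] (c : J → V → ℝ) (y : V → ℝ)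
  (h : V → V) (al om τ N : ℝ) (nc : ℕ), 0 < al → al ≤ 1 → 0 ≤ om → 1 ≤ nc → 1 ≤ τ →
  (Fintype.card V : ℝ) + Fintype.card J + 3 ≤ N → (∀ i, ∑ j, c j i ^ 2 ≤ τ) →
  (∀ j i, c j i ^ 2 ≤ 1) → (∀ i, |y i| ≤ 1) →
  (∀ v, (Set.ncard {u | |y u| < 1 ∧ h u = v}) ≤ nc) →
  (∀ j u u', |y u| < 1 → |y u'| < 1 → al < c j u ^ 2 → al < c j u' ^ 2 → h u = h u') →
  (∀ j, ∑ u, (if |y u| < 1 ∧ c j u ^ 2 ≤ al then c j u ^ 2 else 0) ≤ om) →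
  8 * nc * om * Real.log (8 * N) ≤ 1 →
  ∃ χ : V → ℝ, (∀ i, |χ i| = 1) ∧ (∀ i, |y i| = 1 → χ i = y i) ∧
    ∀ j, |∑ i, c j i * (χ i - y i)| ≤ C * (√τ + gs (1 + Real.log nc))

/-- RTP: rounding a real matrix with entries at most one, columns of norm^2 at most `τ`, rows of
norm^2 at most `B`. -/
def RTP (C : ℝ) : Prop := ∀ (V J : Type) [Fintype V] [Fintype J] (c : J → V → ℝ)
  (z : V → ℝ) (B N τ : ℝ), 1 ≤ τ → τ ≤ B → (Fintype.card V : ℝ) + Fintype.card J + 3 ≤ N →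
  (∀ j i, c j i ^ 2 ≤ 1) → (∀ i, ∑ j, c j i ^ 2 ≤ τ) → (∀ j, ∑ i, c j i ^ 2 ≤ B) →
  (∀ i, |z i| ≤ 1) →
  ∃ y : V → ℝ, (∀ i, |y i| = 1) ∧ ∀ j, |∑ i, c j i * (y i - z i)| ≤ C * (√τ + gs (LL B N))

end Pool.Agent.Helper60.BO
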